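import Mathlib
import Pool.Agent.H88.HC.Homog

set_option autoImplicit false

namespace Pool.Agent.Results.MP_c48673_co.FirstSlope

open Finset

/-- The triangular grid `T_d(n)`: the points of `ℝ^d` whose coordinates are non-negative integers
with sum at most `n - 1`. -/
def grid (d n : ℕ) : Set (Fin d → ℝ) :=
  {y | ∃ x : Fin d → ℕ, ∑ i, x i + 1 ≤ n ∧ ∀ i, y i = (x i : ℝ)}

/-- `H` is an affine hyperplane of `ℝ^d`: the solution set of one linear equation
`a_1 y_1 + ... + a_d y_d = c` with `a ≠ 0`. -/
def IsHyperplane {d : ℕ} (H : Set (Fin d → ℝ)) : Prop :=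
  ∃ (a : Fin d → ℝ) (c : ℝ), a ≠ 0 ∧ H = {y | ∑ i, a i * y i = c}

open Classical in
/-- The multiset `S` is a `k`-cover of `T_d(n)`: its members are affine hyperplanes and every point
of the grid lies on at least `k` of them, counted with multiplicity. -/
def IsCover (n d k : ℕ) (S : Multiset (Set (Fin d → ℝ))) : Prop :=
  (∀ H ∈ S, IsHyperplane H) ∧ ∀ y ∈ grid d n, k ≤ S.countP (fun H => y ∈ H)

/-- `f(n, d, k)`: the minimum cardinality (with multiplicity) of a `k`-cover of `T_d(n)`. -/
noncomputable def f (n d k : ℕ) : ℕ :=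
  sInf {N : ℕ | ∃ S : Multiset (Set (Fin d → ℝ)), IsCover n d k S ∧ Multiset.card S = N}

/-- Lower bound for one cover. -/
theorem lower (b n : ℕ) (hb : 1 ≤ b) (hn : 1 ≤ n) (S : Multiset (Set (Fin (2 * b - 1) → ℝ)))
    (hS : IsCover n (2 * b - 1) (b + 1) S) : 2 * n ≤ Multiset.card S := by
  classical
  by_contra hlt
  push Not at hlt
  obtain ⟨hH, hcov⟩ := hS
  set l := S.toList with hl
  have hlS : (l : Multiset (Set (Fin (2 * b - 1) → ℝ))) = S := Multiset.coe_toList S
  have hmap : (Finset.univ : Finset (Fin l.length)).val.map l.get = S := by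
    rw [Fin.univ_val_map, List.ofFn_get, hlS]
  have hlen : l.length = Multiset.card S := by rw [← hlS]; simp
  have hex : ∀ j : Fin l.length, ∃ (a : Fin (2 * b - 1) → ℝ) (c : ℝ), a ≠ 0 ∧
      l.get j = {y | ∑ i, a i * y i = c} := by
    intro j
    apply hH
    rw [← hlS]
    exact List.get_mem l j
  choose A C hA hAC using hex
  obtain ⟨x, hx, hxG⟩ := Pool.Agent.H88.HC.good (ι := Fin l.length) b hb
    (Finset.univ : Finset (Option (Fin (2 * b - 1)))) (by
      rw [Finset.card_univ, Fintype.card_option, Fintype.card_fin]; omega)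
    (n - 1) Finset.univ (fun j o => o.elim 0 (A j)) C (by
      intro j _ hconst
      apply hA j
      funext i
      have := hconst (some i) (mem_univ _) none (mem_univ _)
      simpa using this) (by
      rw [Finset.card_univ, Fintype.card_fin, hlen]; omega)
  rw [Fintype.sum_option] at hx
  have hy : (fun i => (x (some i) : ℝ)) ∈ grid (2 * b - 1) n :=
    ⟨fun i => x (some i), by show ∑ i, x (some i) + 1 ≤ n; omega, fun i => rfl⟩
  have h1 := hcov _ hy
  rw [← hmap, Multiset.countP_map] at h1
  have h2 := hxG (Finset.univ.filter (fun j => (fun i => (x (some i) : ℝ)) ∈ l.get j))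
    (subset_univ _) (by
      intro j hj
      have hj' := (mem_filter.1 hj).2
      rw [hAC j, Set.mem_ofPred_eq] at hj'
      unfold Pool.Agent.H88.HC.lin
      rw [Fintype.sum_option]
      simpa using hj')
  rw [← Finset.filter_val] at h1
  have h3 : Multiset.card (Finset.univ.filter
      (fun j => (fun i => (x (some i) : ℝ)) ∈ l.get j)).val ≤ b := h2
  omega

/-- The hyperplanes of the upper bound: `y_i = c`, and `y_1 + ... + y_d = n - 1 - c`. -/
def hyp (d n : ℕ) (o : Option (Fin d)) (c : ℕ) : Set (Fin d → ℝ) :=
  match o with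
  | some i => {y | y i = (c : ℝ)}
  | none => {y | ∑ i, y i = (n : ℝ) - 1 - c}

theorem hyp_isHyperplane (d n : ℕ) (hd : 0 < d) (o : Option (Fin d)) (c : ℕ) :
    IsHyperplane (hyp d n o c) := by
  classical
  cases o with
  | some i =>
    refine ⟨Pi.single i 1, c, ?_, ?_⟩
    · intro h
      have := congrFun h i
      simp at this
    · ext y
      simp only [hyp, Set.mem_ofPred_eq]
      rw [Finset.sum_eq_single i]
      · simp
      · intro j _ hj
        simp [hj]
      · simp
  | none =>
    refine ⟨fun _ => 1, (n : ℝ) - 1 - c, ?_, ?_⟩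
    · intro h
      have := congrFun h ⟨0, hd⟩
      simp at this
    · ext y
      simp [hyp]

/-- barycentric coordinates of a grid point. -/
def bary {d : ℕ} (n : ℕ) (x : Fin d → ℕ) (o : Option (Fin d)) : ℕ :=
  match o with
  | some i => x i
  | none => n - 1 - ∑ i, x i

theorem mem_hyp {d n : ℕ} {x : Fin d → ℕ} (hx : ∑ i, x i + 1 ≤ n) (o : Option (Fin d)) :
    (fun i => (x i : ℝ)) ∈ hyp d n o (bary n x o) := by
  cases o with
  | some i => simp [hyp, bary]
  | none =>
    simp only [hyp, bary, Set.mem_ofPred_eq]
    rw [Nat.cast_sub (by omega), Nat.cast_sub (by omega)]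
    push_cast
    ring

theorem sum_bary {d n : ℕ} {x : Fin d → ℕ} (hx : ∑ i, x i + 1 ≤ n) :
    ∑ o, bary n x o = n - 1 := by
  rw [Fintype.sum_option]
  simp only [bary]
  omega

/-- Upper bound: an explicit cover. -/
theorem upper (b n : ℕ) (hb : 1 ≤ b) (hne : n % b ≤ n / b) :
    ∃ S : Multiset (Set (Fin (2 * b - 1) → ℝ)), IsCover n (2 * b - 1) (b + 1) S ∧
      Multiset.card S = 2 * n := by
  classical
  set d := 2 * b - 1 with hd
  set D := n / b with hD
  set e := n % b with he
  have hn : b * D + e = n := Nat.div_add_mod n b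
  have hd0 : 0 < d := by omega
  set o : Option (Fin d) := some ⟨0, hd0⟩ with ho
  set S1 : Multiset (Set (Fin d → ℝ)) :=
    ((Finset.univ : Finset (Option (Fin d))) ×ˢ Finset.range D).val.map
      (fun q => hyp d n q.1 q.2) with hS1
  set S2 : Multiset (Set (Fin d → ℝ)) :=
    (Finset.range e).val.map (fun j => hyp d n o (D + j)) with hS2
  set S3 : Multiset (Set (Fin d → ℝ)) :=
    (Finset.range e).val.map (fun j => hyp d n o j) with hS3
  refine ⟨S1 + S2 + S3, ⟨?_, ?_⟩, ?_⟩
  · intro H hH
    rw [Multiset.mem_add, Multiset.mem_add, hS1, hS2, hS3, Multiset.mem_map, Multiset.mem_map,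
      Multiset.mem_map] at hH
    rcases hH with (⟨q, -, rfl⟩ | ⟨j, -, rfl⟩) | ⟨j, -, rfl⟩ <;>
      exact hyp_isHyperplane d n hd0 _ _
  · rintro y ⟨x, hx, hxy⟩
    obtain rfl : y = fun i => (x i : ℝ) := funext hxy
    rw [Multiset.countP_add, Multiset.countP_add, hS1, hS2, hS3, Multiset.countP_map,
      Multiset.countP_map, Multiset.countP_map]
    rw [← Finset.filter_val, ← Finset.filter_val, ← Finset.filter_val]
    set X := bary n x with hX
    have hXs : ∑ o, X o = n - 1 := sum_bary hx
    set L := (Finset.univ : Finset (Option (Fin d))).filter (fun o => X o < D) with hL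
    have hcard : Fintype.card (Option (Fin d)) = 2 * b := by
      rw [Fintype.card_option, Fintype.card_fin]; omega
    have h1 : L.card ≤ (((Finset.univ : Finset (Option (Fin d))) ×ˢ Finset.range D).filter
        (fun q => (fun i => (x i : ℝ)) ∈ hyp d n q.1 q.2)).card := by
      refine card_le_card_of_injOn (fun o => (o, X o)) ?_ ?_
      · intro o ho
        have ho' := (mem_filter.1 (mem_coe.1 ho)).2
        rw [mem_coe, mem_filter, mem_product]
        exact ⟨⟨mem_univ _, mem_range.2 ho'⟩, mem_hyp hx o⟩
      · intro o _ o' _ h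
        exact (Prod.mk.inj h).1
    have hLM := card_filter_add_card_filter_not (s := (Finset.univ : Finset (Option (Fin d))))
      (fun o => X o < D)
    rw [card_univ, hcard, ← hL] at hLM
    set M := (Finset.univ : Finset (Option (Fin d))).filter (fun o => ¬ X o < D) with hM
    -- the reduced coordinates
    have hsplit : ∑ o, (X o % (if X o < D then D else X o + 1) - (if X o < D then 0 else D)) +
        M.card * D ≤ n - 1 := by
      rw [← hXs, hM, card_filter, sum_mul, ← sum_add_distrib]
      refine sum_le_sum fun o _ => ?_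
      by_cases h : X o < D
      · simp [h, Nat.mod_eq_of_lt h]
      · simp only [h, if_false, not_false_eq_true, if_true, one_mul]
        rw [Nat.mod_eq_of_lt (Nat.lt_succ_self _)]
        omega
    by_cases hLb : b + 1 ≤ L.card
    · calc b + 1 ≤ L.card := hLb
        _ ≤ _ := h1
        _ ≤ _ := by
          rw [add_assoc]
          exact Nat.le_add_right _ _
    · have hMb : b ≤ M.card := by omega
      have hn1 : 1 ≤ n := by omega
      have hMle : M.card ≤ b := by
        by_contra hMb'
        push Not at hMb'
        have : (b + 1) * D ≤ M.card * D := Nat.mul_le_mul_right _ hMb'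
        have h5 : (b + 1) * D = b * D + D := by ring
        omega
      have hMeq : M.card = b := le_antisymm hMle hMb
      have hLeq : L.card = b := by omega
      rw [hMeq] at hsplit
      have hterm := single_le_sum (f := fun o => X o % (if X o < D then D else X o + 1) -
        (if X o < D then 0 else D)) (s := Finset.univ) (fun _ _ => Nat.zero_le _) (mem_univ o)
      have hlast : 1 ≤ ((Finset.range e).filter
          (fun j => (fun i => (x i : ℝ)) ∈ hyp d n o (D + j))).card +
          ((Finset.range e).filter (fun j => (fun i => (x i : ℝ)) ∈ hyp d n o j)).card := by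
        by_cases h : X o < D
        · simp only [h, if_true, Nat.mod_eq_of_lt h] at hterm
          have hXe : X o < e := by omega
          have : 0 < ((Finset.range e).filter
              (fun j => (fun i => (x i : ℝ)) ∈ hyp d n o j)).card := by
            rw [card_pos]
            exact ⟨X o, mem_filter.2 ⟨mem_range.2 hXe, mem_hyp hx o⟩⟩
          omega
        · simp only [h, if_false] at hterm
          rw [Nat.mod_eq_of_lt (Nat.lt_succ_self _)] at hterm
          have hXe : X o - D < e := by omega
          have : 0 < ((Finset.range e).filter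
              (fun j => (fun i => (x i : ℝ)) ∈ hyp d n o (D + j))).card := by
            rw [card_pos]
            refine ⟨X o - D, mem_filter.2 ⟨mem_range.2 hXe, ?_⟩⟩
            have e1 : D + (X o - D) = X o := by omega
            rw [e1]
            exact mem_hyp hx o
          omega
      have h1' : b ≤ (((Finset.univ : Finset (Option (Fin d))) ×ˢ Finset.range D).filter
        (fun q => (fun i => (x i : ℝ)) ∈ hyp d n q.1 q.2)).card := by omega
      have := add_le_add h1' hlast
      rw [add_assoc]
      exact this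
  · rw [Multiset.card_add, Multiset.card_add, hS1, hS2, hS3, Multiset.card_map,
      Multiset.card_map, Multiset.card_map, Finset.card_val, Finset.card_val, card_product,
      card_univ, Fintype.card_option, Fintype.card_fin, card_range, card_range]
    have : d + 1 = 2 * b := by omega
    rw [this]
    have : 2 * b * D = 2 * (b * D) := by ring
    omega

/-- every grid has a cover. -/
theorem exists_cover (n d k : ℕ) (hd : 0 < d) :
    ∃ S : Multiset (Set (Fin d → ℝ)), IsCover n d k S := by
  classical
  refine ⟨((Finset.range n) ×ˢ (Finset.range k)).val.map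
    (fun q => hyp d n (some ⟨0, hd⟩) q.1), ?_, ?_⟩
  · intro H hH
    rw [Multiset.mem_map] at hH
    obtain ⟨q, -, rfl⟩ := hH
    exact hyp_isHyperplane d n hd _ _
  · rintro y ⟨x, hx, hxy⟩
    obtain rfl : y = fun i => (x i : ℝ) := funext hxy
    rw [Multiset.countP_map, ← Finset.filter_val]
    have : (Finset.range k).card ≤ (((Finset.range n) ×ˢ (Finset.range k)).filter
        (fun q => (fun i => (x i : ℝ)) ∈ hyp d n (some ⟨0, hd⟩) q.1)).card := by
      refine card_le_card_of_injOn (fun j => (x ⟨0, hd⟩, j)) ?_ ?_
      · intro j hj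
        rw [mem_coe, mem_filter, mem_product]
        refine ⟨⟨mem_range.2 ?_, mem_coe.1 hj⟩, ?_⟩
        · have := single_le_sum (f := x) (s := Finset.univ) (fun _ _ => Nat.zero_le _)
            (mem_univ ⟨0, hd⟩)
          show x ⟨0, hd⟩ < n
          omega
        · simp [hyp]
      · intro j _ j' _ h
        exact (Prod.mk.inj h).2
    rw [card_range] at this
    exact this

/-- **Slope two in every odd dimension.** For all `b, n ≥ 1`, `f(n, 2b-1, b+1) ≥ 2n`, with equality
whenever `n mod b ≤ ⌊n/b⌋`, in particular for all `n ≥ b(b-1)`. -/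
theorem result : ∀ b n : ℕ, 1 ≤ b → 1 ≤ n →
    2 * n ≤ f n (2 * b - 1) (b + 1) ∧
    (n % b ≤ n / b → f n (2 * b - 1) (b + 1) = 2 * n) ∧
    (b * (b - 1) ≤ n → f n (2 * b - 1) (b + 1) = 2 * n) := by
  intro b n hb hn
  have hlow : 2 * n ≤ f n (2 * b - 1) (b + 1) := by
    refine le_csInf ?_ ?_
    · obtain ⟨S, hS⟩ := exists_cover n (2 * b - 1) (b + 1) (by omega)
      exact ⟨_, S, hS, rfl⟩
    · rintro N ⟨S, hS, rfl⟩
      exact lower b n hb hn S hS
  have heq : n % b ≤ n / b → f n (2 * b - 1) (b + 1) = 2 * n := fun h =>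
    le_antisymm (Nat.sInf_le (upper b n hb h)) hlow
  refine ⟨hlow, heq, fun h => heq ?_⟩
  have h1 : n % b < b := Nat.mod_lt _ (by omega)
  have h2 : b - 1 ≤ n / b := by
    rw [Nat.le_div_iff_mul_le (by omega), mul_comm]
    exact h
  omega

end Pool.Agent.Results.MP_c48673_co.FirstSlope
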