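import Pool.Agent.H69.TG.Slope
import Pool.Agent.H69.TG.Upper

/-!
# The slope of `f(n, 2b-1, bm+1)` in high dimension

For every `m` the slope of `f(n, 2b-1, bm+1)` tends to `m + 1` as `b → ∞`, for all covers.
-/

set_option autoImplicit false

open Finset

namespace Pool.Agent.Results.MP_c48673_co.HighDimension

open Pool.Agent.H69.TG

/-- For all `b ≥ 1`, `m` and `η ∈ [0, 1]`, every `(bm+1)`-cover of `T_{2b-1}(n)` with `D` members
satisfies `(m+1) n ≤ (1 + m η + (m+1) exp (-(b-1) η² / (1+η))) D`. Hence for all `m` and `ε > 0`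
there is a `b₀` with `(m + 1 - ε) n ≤ f(n, 2b-1, bm+1) ≤ (m+1) n` for all `b ≥ b₀` and
`n ≥ (bm)²`, and the lower bound holds for every cover and all `n`. -/
theorem result :
    (∀ (b m : ℕ), 1 ≤ b → ∀ η : ℝ, 0 ≤ η → η ≤ 1 →
      ∀ (n D : ℕ) (F : Fin D → Hyp (2 * b - 1)), IsCover n (b * m + 1) F →
        ((m : ℝ) + 1) * n ≤
          (1 + m * η + (m + 1) * Real.exp (-((b - 1) * η ^ 2 / (1 + η)))) * D) ∧
    (∀ (b m : ℕ), 2 ≤ b → ∀ (n D : ℕ) (F : Fin D → Hyp (2 * b - 1)), IsCover n (b * m + 1) F →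
        ((m : ℝ) + 1) * n ≤
          (1 + m * Real.sqrt (Real.log b / (b - 1)) + (m + 1) / Real.sqrt b) * D) ∧
    (∀ (m : ℕ) (ε : ℝ), 0 < ε → ∃ b₀ : ℕ, ∀ b, b₀ ≤ b → 1 ≤ b ∧
      (∀ (n D : ℕ) (F : Fin D → Hyp (2 * b - 1)), IsCover n (b * m + 1) F →
        ((m : ℝ) + 1 - ε) * n ≤ D) ∧
      ∀ n : ℕ, (b * m) ^ 2 ≤ n →
        ((m : ℝ) + 1 - ε) * n ≤ fmin n (2 * b - 1) (b * m + 1) ∧
        fmin n (2 * b - 1) (b * m + 1) ≤ (m + 1) * n) := by
  have hA : ∀ (b m : ℕ), 1 ≤ b → ∀ η : ℝ, 0 ≤ η → η ≤ 1 →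
      ∀ (n D : ℕ) (F : Fin D → Hyp (2 * b - 1)), IsCover n (b * m + 1) F →
        ((m : ℝ) + 1) * n ≤
          (1 + m * η + (m + 1) * Real.exp (-((b - 1) * η ^ 2 / (1 + η)))) * D :=
    fun b m hb η h0 h1 n D F hF => slope_ge b m hb η h0 h1 F hF
  have hB : ∀ (b m : ℕ), 2 ≤ b → ∀ (n D : ℕ) (F : Fin D → Hyp (2 * b - 1)),
      IsCover n (b * m + 1) F →
        ((m : ℝ) + 1) * n ≤
          (1 + m * Real.sqrt (Real.log b / (b - 1)) + (m + 1) / Real.sqrt b) * D := by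
    intro b m hb n D F hF
    have hb2 : (2 : ℝ) ≤ b := by exact_mod_cast hb
    have hb0 : (0 : ℝ) < b := by linarith
    have hb1 : (0 : ℝ) < (b : ℝ) - 1 := by linarith
    have hlog : 0 ≤ Real.log b := Real.log_nonneg (by linarith)
    have hlog2 : Real.log b ≤ (b : ℝ) - 1 := Real.log_le_sub_one_of_pos hb0
    set η := Real.sqrt (Real.log b / (b - 1)) with hη
    have h0 : 0 ≤ η := Real.sqrt_nonneg _
    have h1 : η ≤ 1 := by
      rw [hη, Real.sqrt_le_one]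
      rw [div_le_one hb1]
      exact hlog2
    have hsq : η ^ 2 = Real.log b / (b - 1) := Real.sq_sqrt (div_nonneg hlog hb1.le)
    refine (hA b m (by omega) η h0 h1 n D F hF).trans ?_
    refine mul_le_mul_of_nonneg_right ?_ (Nat.cast_nonneg _)
    have h2 : Real.exp (-((b - 1) * η ^ 2 / (1 + η))) ≤ 1 / Real.sqrt b := by
      have e1 : (b - 1) * η ^ 2 = Real.log b := by
        rw [hsq]
        field_simp
      rw [e1]
      have e2 : 1 / Real.sqrt b = Real.exp (-(Real.log b / 2)) := by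
        rw [Real.exp_neg, one_div, ← Real.log_sqrt hb0.le,
          Real.exp_log (Real.sqrt_pos.2 hb0)]
      rw [e2]
      refine Real.exp_le_exp.2 ?_
      have h3 : Real.log b / 2 ≤ Real.log b / (1 + η) :=
        div_le_div_of_nonneg_left hlog (by linarith) (by linarith)
      linarith
    have hm1 : (0 : ℝ) ≤ (m : ℝ) + 1 := by positivity
    have h3 := mul_le_mul_of_nonneg_left h2 hm1
    have h4 : ((m : ℝ) + 1) * (1 / Real.sqrt b) = (m + 1) / Real.sqrt b := by ring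
    linarith
  refine ⟨hA, hB, fun m ε hε => ?_⟩
  have hm1 : (0 : ℝ) < (m : ℝ) + 1 := by positivity
  -- the loss tends to `0`
  have hlim : ∃ b₀ : ℕ, ∀ b : ℕ, b₀ ≤ b → 2 ≤ b ∧
      ((m : ℝ) + 1 - ε) * (m * Real.sqrt (Real.log b / (b - 1)) + (m + 1) / Real.sqrt b) ≤ ε := by
    have l1 : Filter.Tendsto (fun b : ℕ => Real.log (b : ℝ) / ((b : ℝ) - 1)) Filter.atTop
        (nhds 0) := by
      have e1 : Filter.Tendsto (fun x : ℝ => Real.log x / (1 * x + (-1))) Filter.atTop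
          (nhds 0) := by
        simpa using Real.tendsto_pow_log_div_mul_add_atTop 1 (-1) 1 one_ne_zero
      have e2 := e1.comp tendsto_natCast_atTop_atTop
      refine e2.congr fun b => ?_
      simp [Function.comp, sub_eq_add_neg]
    have l2 : Filter.Tendsto (fun b : ℕ => Real.sqrt (Real.log (b : ℝ) / ((b : ℝ) - 1)))
        Filter.atTop (nhds 0) := by
      have h := (Real.continuous_sqrt.tendsto 0).comp l1
      rw [Real.sqrt_zero] at h
      exact h
    have l3 : Filter.Tendsto (fun b : ℕ => ((m : ℝ) + 1) / Real.sqrt (b : ℝ)) Filter.atTop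
        (nhds 0) :=
      Filter.Tendsto.div_atTop tendsto_const_nhds
        (Real.tendsto_sqrt_atTop.comp tendsto_natCast_atTop_atTop)
    have l4 : Filter.Tendsto (fun b : ℕ => ((m : ℝ) + 1 - ε) *
        (m * Real.sqrt (Real.log b / (b - 1)) + (m + 1) / Real.sqrt b)) Filter.atTop
        (nhds 0) := by
      have := ((l2.const_mul (m : ℝ)).add l3).const_mul ((m : ℝ) + 1 - ε)
      simpa using this
    have l5 := (l4.eventually (Iio_mem_nhds hε)).and (Filter.eventually_ge_atTop 2)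
    obtain ⟨b₀, h⟩ := Filter.eventually_atTop.1 l5
    exact ⟨b₀, fun b hb => ⟨(h b hb).2, le_of_lt (h b hb).1⟩⟩
  obtain ⟨b₀, hb₀⟩ := hlim
  refine ⟨b₀, fun b hb => ?_⟩
  obtain ⟨hb2, hloss⟩ := hb₀ b hb
  have hlow : ∀ (n D : ℕ) (F : Fin D → Hyp (2 * b - 1)), IsCover n (b * m + 1) F →
      ((m : ℝ) + 1 - ε) * n ≤ D := by
    intro n D F hF
    have h1 := hB b m hb2 n D F hF
    set L : ℝ := m * Real.sqrt (Real.log b / (b - 1)) + (m + 1) / Real.sqrt b with hL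
    have hL0 : 0 ≤ L := by positivity
    have h2 : ((m : ℝ) + 1) * n ≤ (1 + L) * D := by
      calc ((m : ℝ) + 1) * n ≤ _ := h1
        _ = (1 + L) * D := by rw [hL]; ring
    have hD0 : (0 : ℝ) ≤ D := Nat.cast_nonneg _
    have hn0 : (0 : ℝ) ≤ n := Nat.cast_nonneg _
    rcases le_or_gt ((m : ℝ) + 1 - ε) 0 with h | h
    · nlinarith
    · have h3 : ((m : ℝ) + 1 - ε) * (1 + L) ≤ m + 1 := by linarith
      have h4 : ((m : ℝ) + 1) * (((m : ℝ) + 1 - ε) * n) ≤ ((m : ℝ) + 1) * D := by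
        calc ((m : ℝ) + 1) * (((m : ℝ) + 1 - ε) * n)
            = ((m : ℝ) + 1 - ε) * (((m : ℝ) + 1) * n) := by ring
          _ ≤ ((m : ℝ) + 1 - ε) * ((1 + L) * D) := mul_le_mul_of_nonneg_left h2 h.le
          _ = (((m : ℝ) + 1 - ε) * (1 + L)) * D := by ring
          _ ≤ ((m : ℝ) + 1) * D := mul_le_mul_of_nonneg_right h3 hD0
      exact le_of_mul_le_mul_left h4 hm1
  refine ⟨by omega, hlow, fun n hn => ?_⟩
  obtain ⟨F, hF, -⟩ := upper (b := b) (d := 2 * b - 1) (m := m) (by omega) (by omega) hn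
  have hne : {D | ∃ F : Fin D → Hyp (2 * b - 1), IsCover n (b * m + 1) F}.Nonempty := ⟨_, F, hF⟩
  constructor
  · obtain ⟨F', hF'⟩ := Nat.sInf_mem hne
    exact hlow n _ F' hF'
  · exact Nat.sInf_le ⟨F, hF⟩

end Pool.Agent.Results.MP_c48673_co.HighDimension
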