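import Pool.Agent.H69.TG.Upper

/-!
# Covers of triangular grids without paired hyperplanes

The slope `m + 1` of `f(n, 2b-1, bm+1)` is correct, with error `0`, for all covers without
hyperplanes of one special kind.
-/

set_option autoImplicit false

open Finset

namespace Pool.Agent.Results.MP_c48673_co.UnpairedCovers

open Pool.Agent.H69.TG

open Classical in
/-- Let `b ≥ 1`, `m ≥ 0`. Every `(bm+1)`-cover of `T_{2b-1}(n)` with `D` members satisfies
`(m+1) n ≤ D + m #(paired members)`, for every arrangement `σ` of the `2b` barycentric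
coordinates in pairs. A cover in whose members at most one barycentric coefficient is repeated
has at least `(m+1) n` members, and for `n ≥ (bm)^2` there is a cover with exactly `(m+1) n`
members, all parallel to facets. -/
theorem result (b m : ℕ) (hb : 1 ≤ b) :
    (∀ (n D : ℕ) (F : Fin D → Hyp (2 * b - 1)) (σ : Equiv.Perm (Fin (2 * b - 1 + 1))),
      IsCover n (b * m + 1) F →
        (m + 1) * n ≤ D + m * (univ.filter (fun i => (F i).Paired σ)).card) ∧
    (∀ (n D : ℕ) (F : Fin D → Hyp (2 * b - 1)), IsCover n (b * m + 1) F →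
      (∀ i, (F i).OneRep) → (m + 1) * n ≤ D) ∧
    (∀ n : ℕ, (b * m) ^ 2 ≤ n → ∃ F : Fin ((m + 1) * n) → Hyp (2 * b - 1),
      IsCover n (b * m + 1) F ∧ ∀ i, (F i).FacetPar ∧ (F i).OneRep) := by
  have hd : 2 * b - 1 + 1 = 2 * b := by omega
  refine ⟨fun n D F σ hF => ?_, fun n D F hF h1 => ?_, fun n hn => ?_⟩
  · rcases Nat.eq_zero_or_pos n with h | h
    · subst h
      simp
    · exact lower hd hb h F hF σ
  · rcases Nat.eq_zero_or_pos n with h | h
    · subst h
      simp
    · exact lower_oneRep hd hb h F hF h1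
  · obtain ⟨F, h1, h2⟩ := upper (m := m) hd hb hn
    exact ⟨F, h1, fun i => ⟨h2 i, (h2 i).oneRep⟩⟩

end Pool.Agent.Results.MP_c48673_co.UnpairedCovers
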